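import Pool.Agent.N298.HS.StmB

/-!
# Project HS, piece REL: relative property (T) of `(E_2(R) ⋉ R², R²)`
-/

set_option autoImplicit false

namespace Pool.Agent.N853.HS

open MeasureTheory
open Pool.Agent.N298.HS

section equivs

variable {R : Type} [CommRing R]

/-- the shear `(r, s) ↦ (r + t s, s)` -/
def eX (t : R) : R × R ≃+ R × R where
  toFun v := (v.1 + t * v.2, v.2)
  invFun v := (v.1 - t * v.2, v.2)
  left_inv v := by ext <;> simp
  right_inv v := by ext <;> simp
  map_add' v w := by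
    ext
    · simp only [Prod.fst_add, Prod.snd_add]
      ring
    · simp only [Prod.snd_add]

/-- the shear `(r, s) ↦ (r, s + t r)` -/
def eY (t : R) : R × R ≃+ R × R where
  toFun v := (v.1, v.2 + t * v.1)
  invFun v := (v.1, v.2 - t * v.1)
  left_inv v := by ext <;> simp
  right_inv v := by ext <;> simp
  map_add' v w := by
    ext
    · simp only [Prod.fst_add]
    · simp only [Prod.fst_add, Prod.snd_add]
      ring

theorem eX_apply (t : R) (v : R × R) : eX t v = (v.1 + t * v.2, v.2) := rfl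

theorem eY_apply (t : R) (v : R × R) : eY t v = (v.1, v.2 + t * v.1) := rfl

end equivs

section hilb

variable {H : Type} [NormedAddCommGroup H] [InnerProductSpace ℂ H]

theorem norm_mul_sub (S T : H ≃ₗᵢ[ℂ] H) (ξ : H) :
    ‖(S * T) ξ - ξ‖ ≤ ‖S ξ - ξ‖ + ‖T ξ - ξ‖ := by
  have h1 : (S * T) ξ = S (T ξ) := rfl
  have h2 : S (T ξ) - ξ = S (T ξ - ξ) + (S ξ - ξ) := by
    rw [map_sub]
    abel
  rw [h1, h2]
  refine (norm_add_le _ _).trans ?_
  rw [S.norm_map, add_comm]

/-- a unitary operator which moves `ξ` by at most `c` and normalises the action of `A` by `s` -/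
def Nz {A : Type} [AddCommGroup A] (U : A → (H ≃ₗᵢ[ℂ] H)) (ξ : H) (c : ℝ) (s : A ≃+ A) : Prop :=
  ∃ T : H ≃ₗᵢ[ℂ] H, (∀ a, T * U a = U (s a) * T) ∧ ‖T ξ - ξ‖ ≤ c

theorem Nz.comp {A : Type} [AddCommGroup A] {U : A → (H ≃ₗᵢ[ℂ] H)} {ξ : H} {c c' : ℝ}
    {s s' : A ≃+ A} (h : Nz U ξ c s) (h' : Nz U ξ c' s') : Nz U ξ (c + c') (s'.trans s) := by
  obtain ⟨T, h1, h2⟩ := h
  obtain ⟨T', h1', h2'⟩ := h'
  refine ⟨T * T', fun a => ?_, (norm_mul_sub T T' ξ).trans (add_le_add h2 h2')⟩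
  rw [mul_assoc, h1', ← mul_assoc, h1, mul_assoc]
  rfl

end hilb

theorem t_rel (h1 : S_MEAS) (h2 : S_REAL) (h3 : S_PAD) : S_REL := by
  obtain ⟨C₁, hC₁, h2⟩ := h2
  obtain ⟨C₂, hC₂, h3⟩ := h3
  intro p hp δ hδ
  set M : ℝ := max 12 (100 * C₁) with hM
  have hM12 : 12 ≤ M := le_max_left _ _
  have hMC : 100 * C₁ ≤ M := le_max_right _ _
  have hM0 : 0 < M := by linarith
  set ε : ℝ := min 1 (δ ^ 2 / (4 * C₂ * M)) with hε
  have hε0 : 0 < ε := lt_min one_pos (by positivity)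
  have hε1 : ε ≤ 1 := min_le_left _ _
  have hεδ : 4 * C₂ * M * ε ≤ δ ^ 2 := by
    have : ε ≤ δ ^ 2 / (4 * C₂ * M) := min_le_right _ _
    rw [le_div_iff₀ (by positivity)] at this
    linarith
  refine ⟨ε, hε0, ?_⟩
  intro R _ _ q hpq hR H _ _ _ U X Y hU hX hY ξ hξ hXY hU1 hU2 v
  obtain ⟨μ, hμ, hchar, hint, hinv⟩ := h1 (R × R) H U hU ξ hξ
  -- near invariance
  have hnear : ∀ (c : ℝ) (s : R × R ≃+ R × R), Nz U ξ c s → ∀ E : Set (R × R → ℂ),
      MeasurableSet E → |μ.real E - μ.real {χ | (fun a => χ (s a)) ∈ E}| ≤ 2 * c := by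
    intro c s ⟨T, hT, hc⟩ E hE
    refine (hinv T s hT E hE).trans ?_
    linarith
  have nX : ∀ t ∈ ({1, -1, 2, -2, (p : R), -(p : R), q, -q} : Set R), Nz U ξ ε (eX t) :=
    fun t ht => ⟨X t, fun a => hX t a.1 a.2, (hXY t ht).1⟩
  have nY : ∀ t ∈ ({1, -1, 2, -2, (p : R), -(p : R), q, -q} : Set R), Nz U ξ ε (eY t) :=
    fun t ht => ⟨Y t, fun a => hY t a.1 a.2, (hXY t ht).2⟩
  -- the law of the two coordinates
  have hm : Measurable fun χ : R × R → ℂ => (χ (1, 0), χ (0, 1)) :=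
    (measurable_pi_apply _).prodMk (measurable_pi_apply _)
  set ν : Measure (ℂ × ℂ) := μ.map fun χ : R × R → ℂ => (χ (1, 0), χ (0, 1)) with hν
  have hνp : IsProbabilityMeasure ν := Measure.isProbabilityMeasure_map hm.aemeasurable
  have hνE : ∀ E : Set (ℂ × ℂ), MeasurableSet E →
      ν.real E = μ.real {χ : R × R → ℂ | (χ (1, 0), χ (0, 1)) ∈ E} := by
    intro E hE
    rw [hν, map_measureReal_apply hm hE]
    rfl
  have hae : ∀ P Q : (R × R → ℂ) → Prop, (∀ᵐ χ ∂μ, P χ ↔ Q χ) → μ.real {χ | P χ} =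
      μ.real {χ | Q χ} := by
    intro P Q h
    apply measureReal_congr
    filter_upwards [h] with χ hχ
    exact propext hχ
  -- the integrals
  have hbd : ∀ a : R × R, ∀ᵐ χ ∂μ, ‖χ a - 1‖ ^ 2 ≤ 4 := by
    intro a
    filter_upwards [hchar] with χ hχ
    have : ‖χ a - 1‖ ≤ 2 := by
      refine (norm_sub_le _ _).trans ?_
      rw [hχ.1 a, norm_one]
      norm_num
    nlinarith [norm_nonneg (χ a - 1)]
  have hms : ∀ a : R × R, Measurable fun χ : R × R → ℂ => ‖χ a - 1‖ ^ 2 := by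
    intro a
    exact (((measurable_pi_apply a).sub_const 1).norm).pow_const 2
  have hintg : ∀ a : R × R, Integrable (fun χ : R × R → ℂ => ‖χ a - 1‖ ^ 2) μ := by
    intro a
    refine Integrable.of_bound (hms a).aestronglyMeasurable 4 ?_
    filter_upwards [hbd a] with χ hχ
    rw [Real.norm_eq_abs, abs_of_nonneg (sq_nonneg _)]
    exact hχ
  have hmark : ∀ a : R × R, ‖U a ξ - ξ‖ ≤ ε → μ.real {χ | 1 / 10 ≤ ‖χ a - 1‖} ≤ 100 * ε := by
    intro a ha
    have e1 := mul_meas_ge_le_integral_of_nonneg (μ := μ)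
      (f := fun χ : R × R → ℂ => ‖χ a - 1‖ ^ 2)
      (Filter.Eventually.of_forall fun χ => sq_nonneg _) (hintg a) ((1 / 10) ^ 2)
    have e2 : {χ : R × R → ℂ | (1 / 10 : ℝ) ^ 2 ≤ ‖χ a - 1‖ ^ 2} =
        {χ | 1 / 10 ≤ ‖χ a - 1‖} := by
      ext χ
      simp only [Set.mem_ofPred_eq]
      exact pow_le_pow_iff_left₀ (by norm_num) (norm_nonneg _) (by norm_num)
    rw [e2, ← hint a] at e1
    have e3 : ‖U a ξ - ξ‖ ^ 2 ≤ ε ^ 2 := pow_le_pow_left₀ (norm_nonneg _) ha 2
    nlinarith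
  have e1 : ∀ (s : R × R ≃+ R × R) (f : ℂ × ℂ → ℂ × ℂ), Nz U ξ ε s →
      (∀ᵐ χ ∂μ, (χ (s (1, 0)), χ (s (0, 1))) = f (χ (1, 0), χ (0, 1))) → Measurable f →
      ∀ E : Set (ℂ × ℂ), MeasurableSet E → |ν.real E - ν.real {z | f z ∈ E}| ≤ 100 * ε := by
    intro s f hs hf hfm E hE
    rw [hνE E hE, hνE {z | f z ∈ E} (hfm hE)]
    have e2 := hnear ε s hs {χ : R × R → ℂ | (χ (1, 0), χ (0, 1)) ∈ E} (hm hE)
    have e3 : μ.real {χ : R × R → ℂ | (fun a => χ (s a)) ∈
        {χ : R × R → ℂ | (χ (1, 0), χ (0, 1)) ∈ E}} =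
        μ.real {χ : R × R → ℂ | (χ (1, 0), χ (0, 1)) ∈ {z | f z ∈ E}} := by
      apply hae
      filter_upwards [hf] with χ hχ
      show (χ (s (1, 0)), χ (s (0, 1))) ∈ E ↔ f (χ (1, 0), χ (0, 1)) ∈ E
      rw [hχ]
    rw [e3] at e2
    linarith
  -- the characters
  have hsq : ∀ᵐ χ : R × R → ℂ ∂μ, (χ (2, 0) = χ (1, 0) ^ 2 ∧ χ (0, 2) = χ (0, 1) ^ 2) ∧
      χ (-2, 0) = (starRingEnd ℂ (χ (1, 0))) ^ 2 ∧
      χ (0, -2) = (starRingEnd ℂ (χ (0, 1))) ^ 2 := by
    filter_upwards [hchar] with χ hχ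
    have hχ0 : χ 0 = 1 := by
      have e2 := hχ.2 0 0
      rw [add_zero] at e2
      have e3 : χ 0 ≠ 0 := by
        intro h
        have := hχ.1 0
        rw [h, norm_zero] at this
        exact zero_ne_one this
      exact (mul_left_cancel₀ e3 (by rw [mul_one]; exact e2)).symm
    have hneg : ∀ a, χ (-a) = starRingEnd ℂ (χ a) := by
      intro a
      have e2 := hχ.2 (-a) a
      rw [neg_add_cancel, hχ0] at e2
      have e3 : χ a * starRingEnd ℂ (χ a) = 1 := by
        rw [Complex.mul_conj, Complex.normSq_eq_norm_sq, hχ.1 a]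
        norm_num
      calc χ (-a) = χ (-a) * (χ a * starRingEnd ℂ (χ a)) := by rw [e3, mul_one]
        _ = χ (-a) * χ a * starRingEnd ℂ (χ a) := by ring
        _ = _ := by rw [← e2, one_mul]
    have hdbl : ∀ a, χ (a + a) = χ a ^ 2 := fun a => by rw [hχ.2, sq]
    have a1 : ((2 : R), (0 : R)) = (1, 0) + (1, 0) := by
      ext
      · show (2 : R) = 1 + 1
        norm_num
      · show (0 : R) = 0 + 0
        norm_num
    have a2 : ((0 : R), (2 : R)) = (0, 1) + (0, 1) := by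
      ext
      · show (0 : R) = 0 + 0
        norm_num
      · show (2 : R) = 1 + 1
        norm_num
    have a3 : ((-2 : R), (0 : R)) = -(2, 0) := by
      ext
      · rfl
      · show (0 : R) = -0
        rw [neg_zero]
    have a4 : ((0 : R), (-2 : R)) = -(0, 2) := by
      ext
      · show (0 : R) = -0
        rw [neg_zero]
      · rfl
    have b1 : χ (2, 0) = χ (1, 0) ^ 2 := by rw [a1, hdbl]
    have b2 : χ (0, 2) = χ (0, 1) ^ 2 := by rw [a2, hdbl]
    refine ⟨⟨b1, b2⟩, ?_, ?_⟩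
    · rw [a3, hneg, b1, map_pow]
    · rw [a4, hneg, b2, map_pow]
  have hadd : ∀ᵐ χ : R × R → ℂ ∂μ, ∀ r s : R, χ (r, s) = χ (r, 0) * χ (0, s) := by
    filter_upwards [hchar] with χ hχ
    intro r s
    rw [← hχ.2]
    congr 1
    ext
    · show r = r + 0
      rw [add_zero]
    · show s = 0 + s
      rw [zero_add]
  have hmconj : Measurable (starRingEnd ℂ) := Complex.continuous_conj.measurable
  have hreal := h2 ν (100 * ε) (by positivity) (by
    rw [hν, ae_map_iff hm.aemeasurable]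
    · filter_upwards [hchar] with χ hχ
      exact ⟨hχ.1 _, hχ.1 _⟩
    · exact (measurableSet_eq_fun measurable_fst.norm measurable_const).inter
        (measurableSet_eq_fun measurable_snd.norm measurable_const)) (by
    rw [hνE _ (measurableSet_le measurable_const (measurable_fst.sub_const 1).norm)]
    exact hmark (1, 0) hU1) (by
    rw [hνE _ (measurableSet_le measurable_const (measurable_snd.sub_const 1).norm)]
    exact hmark (0, 1) hU2) (by
    intro E hE
    refine ⟨?_, ?_, ?_, ?_⟩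
    · refine e1 (eX 2) (fun z => (z.1, z.2 * z.1 ^ 2)) (nX 2 (by simp)) ?_ (by fun_prop) E hE
      filter_upwards [hsq, hadd] with χ hχ ha
      rw [eX_apply, eX_apply]
      simp only [mul_zero, add_zero, mul_one, zero_add]
      rw [ha 2 1, hχ.1.1, mul_comm]
    · refine e1 (eX (-2)) (fun z => (z.1, z.2 * (starRingEnd ℂ z.1) ^ 2)) (nX (-2) (by simp)) ?_
        (measurable_fst.prodMk (measurable_snd.mul ((hmconj.comp measurable_fst).pow_const 2))) E hE
      filter_upwards [hsq, hadd] with χ hχ ha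
      rw [eX_apply, eX_apply]
      simp only [mul_zero, add_zero, mul_one, zero_add]
      rw [ha (-2) 1, hχ.2.1, mul_comm]
    · refine e1 (eY 2) (fun z => (z.1 * z.2 ^ 2, z.2)) (nY 2 (by simp)) ?_ (by fun_prop) E hE
      filter_upwards [hsq, hadd] with χ hχ ha
      rw [eY_apply, eY_apply]
      simp only [mul_zero, add_zero, mul_one, zero_add]
      rw [ha 1 2, hχ.1.2]
    · refine e1 (eY (-2)) (fun z => (z.1 * (starRingEnd ℂ z.2) ^ 2, z.2)) (nY (-2) (by simp)) ?_
        ((measurable_fst.mul ((hmconj.comp measurable_snd).pow_const 2)).prodMk measurable_snd) E hE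
      filter_upwards [hsq, hadd] with χ hχ ha
      rw [eY_apply, eY_apply]
      simp only [mul_zero, add_zero, mul_one, zero_add]
      rw [ha 1 (-2), hχ.2.2])
  have hpad := h3 p hp R q hpq hR μ (M * ε) (by positivity) hchar (by
    have e2 : μ.real {χ : R × R → ℂ | ¬ (χ (1, 0) = 1 ∧ χ (0, 1) = 1)} =
        ν.real {z | z ≠ (1, 1)} := by
      rw [hνE {z | z ≠ (1, 1)} (measurableSet_singleton ((1 : ℂ), (1 : ℂ))).compl]
      congr 1
      ext χ
      simp only [Set.mem_ofPred_eq, ne_eq, Prod.mk.injEq]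
    rw [e2]
    refine hreal.trans ?_
    nlinarith) (by
    intro E hE
    constructor
    · have n1 : Nz U ξ (ε + (ε + (ε + ε))) (((((eX (-1)).trans (eX (-1))).trans (eY 1))).trans
          (eX (-1))) :=
        (nX (-1) (by simp)).comp ((nY 1 (by simp)).comp ((nX (-1) (by simp)).comp
          (nX (-1) (by simp))))
      have e2 := hnear _ _ n1 E hE
      have e3 : ∀ v : R × R, (((((eX (-1)).trans (eX (-1))).trans (eY 1))).trans (eX (-1))) v =
          (-v.2, v.1 - v.2) := by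
        intro v
        simp only [AddEquiv.trans_apply, eX_apply, eY_apply]
        ext
        · ring
        · ring
      simp only [e3] at e2
      refine e2.trans ?_
      nlinarith
    · have n1 : Nz U ξ (ε + (ε + (ε + (ε + (ε + ε)))))
          (((((((eX (-1)).trans (eY 1)).trans (eX (-1)))).trans (eX (p : R))).trans
            (eY (-q))).trans (eX (p : R))) :=
        (nX p (by simp)).comp ((nY (-q) (by simp)).comp ((nX p (by simp)).comp
          ((nX (-1) (by simp)).comp ((nY 1 (by simp)).comp (nX (-1) (by simp))))))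
      have e2 := hnear _ _ n1 E hE
      have e3 : ∀ v : R × R, (((((((eX (-1)).trans (eY 1)).trans (eX (-1)))).trans
          (eX (p : R))).trans (eY (-q))).trans (eX (p : R))) v = (p * v.1, q * v.2) := by
        intro v
        simp only [AddEquiv.trans_apply, eX_apply, eY_apply]
        ext
        · linear_combination (-(p : R) * v.1 + v.2) * hpq
        · linear_combination (-v.1) * hpq
      simp only [e3] at e2
      refine e2.trans ?_
      nlinarith)
  -- conclusion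
  have hSm : MeasurableSet {χ : R × R → ℂ | ∃ v, χ v ≠ 1} := by
    have : {χ : R × R → ℂ | ∃ v, χ v ≠ 1} = ⋃ v, {χ : R × R → ℂ | χ v ≠ 1} := by
      ext χ
      simp
    rw [this]
    refine MeasurableSet.iUnion fun v => ?_
    have hmv : Measurable fun χ : R × R → ℂ => χ v := measurable_pi_apply v
    exact hmv (measurableSet_singleton (1 : ℂ)).compl
  have hfin : ∫ χ, ‖χ v - 1‖ ^ 2 ∂μ ≤ 4 * μ.real {χ : R × R → ℂ | ∃ v, χ v ≠ 1} := by
    have e2 : ∫ χ : R × R → ℂ, Set.indicator {χ : R × R → ℂ | ∃ v, χ v ≠ 1} (fun _ => (4 : ℝ)) χ ∂μ =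
        4 * μ.real {χ : R × R → ℂ | ∃ v, χ v ≠ 1} := by
      rw [integral_indicator_const _ hSm, smul_eq_mul, mul_comm]
    rw [← e2]
    refine integral_mono_ae (hintg v) ((integrable_const (4 : ℝ)).indicator hSm) ?_
    filter_upwards [hbd v] with χ hχ
    by_cases h : ∃ v, χ v ≠ 1
    · rw [Set.indicator_of_mem (show χ ∈ {χ : R × R → ℂ | ∃ v, χ v ≠ 1} from h)]
      exact hχ
    · rw [Set.indicator_of_notMem (show χ ∉ {χ : R × R → ℂ | ∃ v, χ v ≠ 1} from h)]
      push Not at h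
      rw [h v, sub_self, norm_zero]
      norm_num
  rw [← hint v] at hfin
  have hlast : ‖U v ξ - ξ‖ ^ 2 ≤ δ ^ 2 := by
    refine hfin.trans ?_
    nlinarith
  exact le_of_sq_le_sq hlast hδ.le

end Pool.Agent.N853.HS
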